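import Mathlib

set_option autoImplicit false

namespace Pool.Agent.Results.MP_dbbe21_pr.Q1
open Finset Matrix

variable {N : ℕ}

/-- marginal kernel: real symmetric with all eigenvalues in `[0,1]`, i.e. `0 ≼ K ≼ 1` -/
def IsKernel (K : Matrix (Fin N) (Fin N) ℝ) : Prop := K.PosSemidef ∧ (1 - K).PosSemidef

/-- principal minor `det K_S` -/
noncomputable def minor (K : Matrix (Fin N) (Fin N) ℝ) (S : Finset (Fin N)) : ℝ :=
  (K.submatrix (fun i : S => (i : Fin N)) (fun i : S => (i : Fin N))).det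

/-- `Pr[X = S]` for the DPP with `Pr[T ⊆ X] = det K_T` (inclusion–exclusion) -/
noncomputable def prob (K : Matrix (Fin N) (Fin N) ℝ) (S : Finset (Fin N)) : ℝ :=
  ∑ T ∈ univ.filter (fun T : Finset (Fin N) => S ⊆ T), (-1) ^ (T.card - S.card) * minor K T

/-- likelihood of a training set -/
noncomputable def lik (K : Matrix (Fin N) (Fin N) ℝ) (D : List (Finset (Fin N))) : ℝ :=
  (D.map (prob K)).prod

/-- optimal (maximum-likelihood) marginal kernel -/
def Optimal (K : Matrix (Fin N) (Fin N) ℝ) (D : List (Finset (Fin N))) : Prop :=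
  IsKernel K ∧ ∀ K', IsKernel K' → lik K' D ≤ lik K D

def D0 : List (Finset (Fin 3)) := [∅, ∅, ∅, {0, 1}, {0, 2}, {1, 2}]

lemma minor_pair (K : Matrix (Fin 3) (Fin 3) ℝ) (a b : Fin 3) (h : a ≠ b) :
    minor K {a, b} = K a a * K b b - K a b * K b a := by
  let e : Fin 2 ≃ ({a, b} : Finset (Fin 3)) := Equiv.ofBijective
    (fun i => if i = 0 then ⟨a, by simp⟩ else ⟨b, by simp⟩) (by
      constructor
      · intro i j hij
        fin_cases i <;> fin_cases j <;> simp_all [h.symm]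
      · rintro ⟨x, hx⟩
        simp only [mem_insert, mem_singleton] at hx
        rcases hx with rfl | rfl
        · exact ⟨0, rfl⟩
        · exact ⟨1, rfl⟩)
  unfold minor
  rw [← Matrix.det_submatrix_equiv_self e, Matrix.det_fin_two]
  rfl

lemma minor_one (K : Matrix (Fin 3) (Fin 3) ℝ) (a : Fin 3) : minor K {a} = K a a := by
  unfold minor
  rw [Matrix.det_unique]
  simp

lemma minor_empty (K : Matrix (Fin 3) (Fin 3) ℝ) : minor K ∅ = 1 := by
  unfold minor
  exact Matrix.det_isEmpty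

lemma minor_univ (K : Matrix (Fin 3) (Fin 3) ℝ) : minor K {0, 1, 2} = K.det := by
  let e : Fin 3 ≃ ({0, 1, 2} : Finset (Fin 3)) := Equiv.ofBijective
    (fun i => ⟨i, by fin_cases i <;> simp⟩) (by
      constructor
      · intro i j hij
        exact congrArg Subtype.val hij
      · rintro ⟨x, hx⟩
        exact ⟨x, rfl⟩)
  unfold minor
  rw [← Matrix.det_submatrix_equiv_self e]
  rfl

lemma prob_pair (K : Matrix (Fin 3) (Fin 3) ℝ) (a b : Fin 3) (h : a ≠ b) :
    prob K {a, b} = (K a a * K b b - K a b * K b a) - K.det := by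
  have f1 : ∀ a b : Fin 3, a ≠ b → univ.filter (fun T : Finset (Fin 3) => {a, b} ⊆ T) =
      {{a, b}, {0, 1, 2}} := by decide
  have f2 : ∀ a b : Fin 3, a ≠ b → ({a, b} : Finset (Fin 3)) ≠ {0, 1, 2} := by decide
  have c4 : ({0, 1, 2} : Finset (Fin 3)).card = 3 := by decide
  rw [prob, f1 a b h, sum_pair (f2 a b h), minor_univ, minor_pair K a b h, c4, card_pair h]
  norm_num
  ring

lemma prob_empty (K : Matrix (Fin 3) (Fin 3) ℝ) : prob K ∅ =
    1 - (K 0 0 + K 1 1 + K 2 2) + ((K 0 0 * K 1 1 - K 0 1 * K 1 0) + (K 0 0 * K 2 2 - K 0 2 * K 2 0)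
      + (K 1 1 * K 2 2 - K 1 2 * K 2 1)) - K.det := by
  have f0 : univ.filter (fun T : Finset (Fin 3) => ∅ ⊆ T) =
      {∅, {0}, {1}, {2}, {0, 1}, {0, 2}, {1, 2}, {0, 1, 2}} := by decide
  have c1 : ({0, 1} : Finset (Fin 3)).card = 2 := by decide
  have c2 : ({0, 2} : Finset (Fin 3)).card = 2 := by decide
  have c3 : ({1, 2} : Finset (Fin 3)).card = 2 := by decide
  have c4 : ({0, 1, 2} : Finset (Fin 3)).card = 3 := by decide
  rw [prob, f0, sum_insert (by decide), sum_insert (by decide), sum_insert (by decide),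
    sum_insert (by decide), sum_insert (by decide), sum_insert (by decide),
    sum_insert (by decide), sum_singleton]
  simp only [minor_univ, minor_empty, minor_one, minor_pair K 0 1 (by decide),
    minor_pair K 0 2 (by decide), minor_pair K 1 2 (by decide), c1, c2, c3, c4, card_empty,
    card_singleton]
  norm_num
  ring

lemma lik_eq (K : Matrix (Fin 3) (Fin 3) ℝ) : lik K D0 =
    (1 - (K 0 0 + K 1 1 + K 2 2) + ((K 0 0 * K 1 1 - K 0 1 * K 1 0) + (K 0 0 * K 2 2 - K 0 2 * K 2 0)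
      + (K 1 1 * K 2 2 - K 1 2 * K 2 1)) - K.det) ^ 3 *
    (((K 0 0 * K 1 1 - K 0 1 * K 1 0) - K.det) * ((K 0 0 * K 2 2 - K 0 2 * K 2 0) - K.det) *
      ((K 1 1 * K 2 2 - K 1 2 * K 2 1) - K.det)) := by
  rw [← prob_empty, ← prob_pair K 0 1 (by decide), ← prob_pair K 0 2 (by decide),
    ← prob_pair K 1 2 (by decide)]
  simp only [lik, D0, List.map_cons, List.map_nil, List.prod_cons, List.prod_nil]
  ring

lemma entry (K : Matrix (Fin 3) (Fin 3) ℝ) (h : IsKernel K) (i j : Fin 3) :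
    -1 ≤ K i j ∧ K i j ≤ 1 := by
  obtain ⟨h1, h2⟩ := h
  have d1 : ∀ a, 0 ≤ K a a := fun a => h1.diag_nonneg
  have d2 : ∀ a, K a a ≤ 1 := fun a => by
    have := h2.diag_nonneg (i := a)
    simp only [Matrix.sub_apply, Matrix.one_apply_eq] at this
    linarith
  have sy : K j i = K i j := by
    have := h1.1.apply i j
    simpa using this
  have p := h1.dotProduct_mulVec_nonneg (Pi.single i 1 + Pi.single j 1)
  have q := h1.dotProduct_mulVec_nonneg (Pi.single i 1 - Pi.single j 1)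
  simp only [star_trivial, Matrix.mulVec_add, Matrix.mulVec_sub, add_dotProduct, sub_dotProduct,
    dotProduct_add, dotProduct_sub, single_dotProduct, Matrix.mulVec_single_one, one_mul,
    Matrix.col_apply] at p q
  constructor <;> linarith [d1 i, d1 j, d2 i, d2 j]

lemma compact : IsCompact {K : Matrix (Fin 3) (Fin 3) ℝ | IsKernel K} := by
  have hcl : ∀ f : Matrix (Fin 3) (Fin 3) ℝ → Matrix (Fin 3) (Fin 3) ℝ, Continuous f →
      IsClosed {K | (f K).PosSemidef} := by
    intro f hf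
    simp only [Matrix.posSemidef_iff_dotProduct_mulVec, Set.ofPred_and, Set.ofPred_forall]
    refine IsClosed.inter (isClosed_eq (by fun_prop) hf) (isClosed_iInter fun x => ?_)
    exact isClosed_le continuous_const (by fun_prop)
  have hc : IsCompact (Set.pi Set.univ (fun _ : Fin 3 => Set.pi Set.univ
      (fun _ : Fin 3 => Set.Icc (-1:ℝ) 1))) :=
    isCompact_univ_pi fun _ => isCompact_univ_pi fun _ => isCompact_Icc
  refine hc.of_isClosed_subset ((hcl id continuous_id).inter (hcl (fun K => 1 - K) (by fun_prop))) ?_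
  intro K hK i _ j _
  exact entry K hK i j

lemma two (u v : ℝ) (hu : 0 ≤ u) (hv : 0 ≤ v) (hu1 : u ≤ 1) (hv1 : v ≤ 1) :
    (1 - u) * (1 - v) * (u * v) ≤ 1 / 16 := by
  have a : u * (1 - u) ≤ 1 / 4 := by nlinarith [sq_nonneg (u - 1/2)]
  have b : v * (1 - v) ≤ 1 / 4 := by nlinarith [sq_nonneg (v - 1/2)]
  have a0 : 0 ≤ u * (1 - u) := mul_nonneg hu (by linarith)
  have b0 : 0 ≤ v * (1 - v) := mul_nonneg hv (by linarith)
  have := mul_le_mul a b b0 (by norm_num)
  linarith

lemma am (s1 s2 s3 : ℝ) (n1 : 0 ≤ s1) (n2 : 0 ≤ s2) (n3 : 0 ≤ s3) :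
    s1 * s2 * s3 ≤ (s1 + s2 + s3) ^ 3 / 27 := by
  nlinarith [mul_nonneg n1 (sq_nonneg (s2 - s3)), mul_nonneg n2 (sq_nonneg (s1 - s3)),
    mul_nonneg n3 (sq_nonneg (s1 - s2)), mul_nonneg (add_nonneg (add_nonneg n1 n2) n3)
    (add_nonneg (add_nonneg (sq_nonneg (s1 - s2)) (sq_nonneg (s1 - s3))) (sq_nonneg (s2 - s3)))]

lemma fin (E s1 s2 s3 : ℝ) (hE0 : 0 ≤ E) (n1 : 0 ≤ s1) (n2 : 0 ≤ s2) (n3 : 0 ≤ s3)
    (key : E * (s1 + s2 + s3) ≤ 1 / 16) : E ^ 3 * (s1 * s2 * s3) ≤ 1 / 110592 := by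
  have amgm := am s1 s2 s3 n1 n2 n3
  calc E ^ 3 * (s1 * s2 * s3) ≤ E ^ 3 * ((s1 + s2 + s3) ^ 3 / 27) :=
        mul_le_mul_of_nonneg_left amgm (by positivity)
    _ = (E * (s1 + s2 + s3)) ^ 3 / 27 := by ring
    _ ≤ (1 / 16) ^ 3 / 27 := by
        have : (E * (s1 + s2 + s3)) ^ 3 ≤ (1 / 16) ^ 3 :=
          pow_le_pow_left₀ (by positivity) key 3
        linarith
    _ = 1 / 110592 := by norm_num

lemma low (K : Matrix (Fin 3) (Fin 3) ℝ) (h : IsKernel K) (hr : K.rank ≤ 2) :
    lik K D0 ≤ 1 / 110592 := by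
  have hdet : K.det = 0 := by
    by_contra hd
    have := Matrix.rank_of_isUnit K ((Matrix.isUnit_iff_isUnit_det K).2 (Ne.isUnit hd))
    rw [this] at hr
    simp at hr
  have hH := h.1.1
  have e0 : ∀ i, 0 ≤ hH.eigenvalues i := fun i => h.1.eigenvalues_nonneg i
  have ht := hH.trace_eq_sum_eigenvalues
  have hd := hH.det_eq_prod_eigenvalues
  have hc := congrArg (Polynomial.eval (1:ℝ)) hH.charpoly_eq
  rw [Matrix.eval_charpoly, Polynomial.eval_prod] at hc
  simp only [Polynomial.eval_sub, Polynomial.eval_X, Polynomial.eval_C, Fin.prod_univ_three,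
    Fin.sum_univ_three, Matrix.trace_fin_three, RCLike.ofReal_real_eq_id, id] at ht hd hc
  rw [Matrix.det_fin_three] at hc
  simp only [Matrix.sub_apply, Matrix.scalar_apply, Matrix.diagonal_apply] at hc
  simp only [Fin.reduceEq, if_true, if_false] at hc
  have hd3 := Matrix.det_fin_three K
  set s1 := K 0 0 * K 1 1 - K 0 1 * K 1 0 with hs1
  set s2 := K 0 0 * K 2 2 - K 0 2 * K 2 0 with hs2
  set s3 := K 1 1 * K 2 2 - K 1 2 * K 2 1 with hs3
  have m : ∀ a b : Fin 3, 0 ≤ K a a * K b b - K a b * K b a := by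
    intro a b
    have := (h.1.submatrix ![a, b]).det_nonneg
    rw [Matrix.det_fin_two] at this
    simpa using this
  have n1 : 0 ≤ s1 := m 0 1
  have n2 : 0 ≤ s2 := m 0 2
  have n3 : 0 ≤ s3 := m 1 2
  have hp : 0 ≤ (1 - K).det := h.2.det_nonneg
  rw [Matrix.det_fin_three] at hp
  simp only [Matrix.sub_apply, Matrix.one_apply, Fin.reduceEq, if_true, if_false] at hp
  set x := hH.eigenvalues 0
  set y := hH.eigenvalues 1
  set z := hH.eigenvalues 2
  have hx := e0 0
  have hy := e0 1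
  have hz := e0 2
  have hE : 1 - (K 0 0 + K 1 1 + K 2 2) + (s1 + s2 + s3) = (1 - x) * (1 - y) * (1 - z) := by
    rw [hdet] at hd3; simp only [hs1, hs2, hs3]; linear_combination hc - hd3
  have hE0 : 0 ≤ 1 - (K 0 0 + K 1 1 + K 2 2) + (s1 + s2 + s3) := by
    rw [hE, ← hc]; simpa using hp
  have hS : s1 + s2 + s3 = x * y + x * z + y * z := by
    rw [hdet] at hd; linear_combination hE + ht + hd
  have e1 : ∀ i, hH.eigenvalues i ≤ 1 := by
    intro i
    have hv := h.2.dotProduct_mulVec_nonneg (hH.eigenvectorBasis i)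
    have hm := hH.mulVec_eigenvectorBasis i
    have hn : star (⇑(hH.eigenvectorBasis i)) ⬝ᵥ ⇑(hH.eigenvectorBasis i) = 1 := by
      have := hH.eigenvectorBasis.orthonormal.1 i
      rw [EuclideanSpace.norm_eq, Real.sqrt_eq_one] at this
      simpa [dotProduct, sq] using this
    rw [Matrix.sub_mulVec, Matrix.one_mulVec, hm, dotProduct_sub, dotProduct_smul, hn] at hv
    simpa using hv
  have hx1 := e1 0
  have hy1 := e1 1
  have hz1 := e1 2
  have key : (1 - (K 0 0 + K 1 1 + K 2 2) + (s1 + s2 + s3)) * (s1 + s2 + s3) ≤ 1 / 16 := by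
    rw [hE, hS]
    rw [hdet] at hd
    rcases mul_eq_zero.1 hd.symm with h' | h'
    · rcases mul_eq_zero.1 h' with h'' | h''
      · have := two y z hy hz hy1 hz1
        rw [h'']; linarith
      · have := two x z hx hz hx1 hz1
        rw [h'']; linarith
    · have := two x y hx hy hx1 hy1
      rw [h']; linarith
  rw [lik_eq, hdet]
  simp only [sub_zero]
  exact fin _ s1 s2 s3 hE0 n1 n2 n3 key

theorem result : ∃ (k N : ℕ) (D : List (Finset (Fin N))), 1 ≤ k ∧ (∀ S ∈ D, S.card ≤ k) ∧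
    (∃ K, Optimal K D) ∧ ∀ K, Optimal K D → k < K.rank := by
  have h3 : IsKernel (Matrix.diagonal (fun _ : Fin 3 => (1/3 : ℝ))) := by
    constructor
    · exact Matrix.PosSemidef.diagonal (fun _ => by norm_num)
    · rw [← Matrix.diagonal_one, Matrix.diagonal_sub]
      exact Matrix.PosSemidef.diagonal (fun _ => by norm_num)
  refine ⟨2, 3, D0, by norm_num, by decide, ?_, ?_⟩
  · have hc : Continuous (fun K : Matrix (Fin 3) (Fin 3) ℝ => lik K D0) := by
      simp only [lik_eq]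
      fun_prop
    obtain ⟨K, hK, hmax⟩ := compact.exists_isMaxOn ⟨_, h3⟩ hc.continuousOn
    exact ⟨K, hK, fun K' h' => hmax h'⟩
  · intro K hK
    by_contra hr
    have h1 := low K hK.1 (by omega)
    have h2 := hK.2 _ h3
    rw [lik_eq (Matrix.diagonal _), Matrix.det_diagonal] at h2
    simp only [Matrix.diagonal_apply, Fin.reduceEq, if_true, if_false, Fin.prod_univ_three] at h2
    norm_num at h2
    linarith

end Pool.Agent.Results.MP_dbbe21_pr.Q1
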